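import Pool.Agent.EVL.LOC
import Pool.Agent.ETG.All
import Pool.Agent.EWH.All

/-!
EVL / All: `Stmt_LOC` from the descent and the tower.
-/

set_option autoImplicit false

namespace Pool.Agent.EVL

open Pool.Agent.EWG Pool.Agent.ETG

/-- every field of the class has a decomposition into local components and components with a
rigid element -/
theorem dec_of (hDSF : Stmt_DSF) (hTOW : Stmt_TOW) (L : Type) [Field L] (gL : Good L)
    (fL : Finite (VV L)) : ∃ (k : ℕ) (C : ZDec (Zf L) k), C.OS :=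
  hTOW (fun L _ => ∃ (k : ℕ) (C : ZDec (Zf L) k), C.OS)
    (fun F L _ _ _ hGF hfF E' ⟨k', C', hC'⟩ => by
      obtain ⟨k, C, hC, -⟩ := hDSF F L hGF hfF E' k' C' hC'
      exact ⟨k, C, hC⟩)
    (fun L _ _ _ hL => hL) L gL fL

theorem facts_of (hDSF : Stmt_DSF) (hTOW : Stmt_TOW) : Facts where
  unq := a_unq
  zfl := a_zfl
  zmp := a_zmp
  sta := a_sta
  vkg := EWG.q_vkr
  vkr := EWH.q_vkr
  fin := EWH.q_fin
  dsf := hDSF
  dec := fun L _ gL fL => dec_of hDSF hTOW L gL fL

/-- LOCALISATION -/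
theorem loc_proof (hDSF : Stmt_DSF) (hTOW : Stmt_TOW) : Stmt_LOC :=
  loc_of (facts_of hDSF hTOW) EWG.q_pfz a_lzr

end Pool.Agent.EVL
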