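import Pool.Agent.ETG.IfaceV

/-!
EVL: localisation of a field `F` (in which `-1` is not a square) at a component `j` of the
structure of `K = F(√-1)` fixed by the conjugation (problem MP_d26ff6_al).
-/

set_option autoImplicit false

namespace Pool.Agent.EVL

open Pool.Agent.EWG Pool.Agent.ETG

/-- LOCALISATION: the extensions `F'/F` and `K' = F'(√-1)` of `K = F(√-1)` in which exactly the
square classes of `K` with component `0` at `j` die. -/
def Stmt_LOC : Prop := ∀ (F K : Type) [Field F] [Field K] [Algebra F K] (E : QD F K),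
  EWH.Two F → E.x = -1 → Finite (VV F) → ∀ (k : ℕ) (C : ZDec (Zf K) k), C.OS → ∀ j : Fin k,
  (∀ v, C.p j v = 0 → C.p j (vmap (E.σ : K →+* K) v) = 0) →
  ∃ (F' K' : Type) (_ : Field F') (_ : Field K') (_ : Algebra F' K') (E' : QD F' K')
    (f : F →+* F') (g : K →+* K'), E'.x = -1 ∧ Finite (VV F') ∧
    (∀ a, g (algebraMap F K a) = algebraMap F' K' (f a)) ∧ g E.θ = E'.θ ∧
    (∀ a, g (E.σ a) = E'.σ (g a)) ∧
    (∀ w : VV K', ∃ v, vmap g v = w) ∧ (∀ v, vmap g v = 0 ↔ C.p j v = 0) ∧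
    ∀ v w, Zf K' (vmap g v) (vmap g w) ↔ Zf K (C.p j v) (C.p j w)

end Pool.Agent.EVL
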