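import Pool.Agent.EVL.UNX

/-!
EVL / CHN: the tower and its union.
-/

set_option autoImplicit false

noncomputable section

namespace Pool.Agent.EVL

open Pool.Agent.EWG Pool.Agent.ETG

namespace St

variable {Ω : Type} [Field Ω] [IsAlgClosed Ω] {W : Type} [AddCommGroup W] [Module (ZMod 2) W]
  {ZW : W → W → Prop} {s : W →ₗ[ZMod 2] W} {i : Ω}

/-- all square classes with component `0` die -/
def Nxt (S T : St ZW s i) : Prop :=
  ∃ (_ : S.F ≤ T.F) (hK : S.K ≤ T.K), (∀ v, T.π (vmap (Subfield.inclusion hK) v) = S.π v) ∧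
    ∀ y, S.π y = 0 → vmap (Subfield.inclusion hK) y = 0

theorem kill_list (hf : Facts) (B : Base ZW i) (S : St ZW s i) (l : List (VV S.K)) :
    (∀ y ∈ l, S.π y = 0) → ∃ T : St ZW s i, ∃ (_ : S.F ≤ T.F) (hK : S.K ≤ T.K),
      (∀ v, T.π (vmap (Subfield.inclusion hK) v) = S.π v) ∧
      ∀ y ∈ l, vmap (Subfield.inclusion hK) y = 0 := by
  induction l with
  | nil =>
    intro _
    refine ⟨S, le_rfl, le_rfl, fun v => by rw [vmap_refl'], ?_⟩
    intro y hy
    cases hy
  | cons y l ih =>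
    intro hl
    obtain ⟨T, hF, hK, hT, hl'⟩ := ih fun z hz => hl z (List.mem_cons_of_mem y hz)
    obtain ⟨U, hF', hK', hU, hy⟩ := T.kill hf B (vmap (Subfield.inclusion hK) y)
      (by rw [hT]; exact hl y List.mem_cons_self)
    refine ⟨U, hF.trans hF', hK.trans hK', ?_, ?_⟩
    · intro v
      rw [← vmap_incl' hK hK', hU, hT]
    · intro z hz
      rw [← vmap_incl' hK hK']
      rcases List.mem_cons.1 hz with rfl | hz
      · exact hy
      · rw [hl' z hz, map_zero]

theorem nxt (hf : Facts) (B : Base ZW i) (S : St ZW s i) : ∃ T, Nxt S T := by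
  have hfin := S.finK hf B
  have hs : {y : VV S.K | S.π y = 0}.Finite := Set.toFinite _
  obtain ⟨T, hF, hK, hT, hl⟩ := S.kill_list hf B hs.toFinset.toList (fun y hy => by
      rw [Finset.mem_toList, Set.Finite.mem_toFinset] at hy
      exact hy)
  refine ⟨T, hF, hK, hT, ?_⟩
  intro y hy
  apply hl
  rw [Finset.mem_toList, Set.Finite.mem_toFinset]
  exact hy

omit [IsAlgClosed Ω] in
theorem fin_up (hf : Facts) (h2 : (2 : Ω) ≠ 0) (i2 : i ^ 2 = -1) {F K : Subfield Ω}
    (ad : IsAd F K i) (ni : i ∉ F) (finK : Finite (VV K)) : Finite (VV F) := by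
  have h4 : ∀ w : VV K, (vmap (Subfield.inclusion ad.le) ⁻¹' {w}).Finite := by
    intro w
    by_cases hw : ∃ v, vmap (Subfield.inclusion ad.le) v = w
    · obtain ⟨v0, hv0⟩ := hw
      apply Set.Finite.subset (Set.toFinite {v0, v0 + vm (-1 : (F)ˣ)})
      intro v hv
      have h5 : vmap (Subfield.inclusion ad.le) (v + v0) = 0 := by
        rw [map_add, hv0, Set.mem_singleton_iff.1 (Set.mem_preimage.1 hv), vm_add_self]
      obtain ⟨u, hu⟩ := vm_surj (v + v0)
      rw [← hu, vmap_vm, vm_eq_zero] at h5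
      obtain ⟨x, hx, hx2⟩ := sq_of h5
      have h7 := ker_of hf h2 ad ni (-1) (by rw [i2]; rfl) u hx hx2
      rcases h7 with h7 | h7
      · left
        have h8 := (vm_eq_zero u).2 h7
        rw [hu] at h8
        calc v = (v + v0) + v0 := by rw [add_assoc, vm_add_self, add_zero]
          _ = v0 := by rw [h8, zero_add]
      · right
        have h8 := (vm_eq_iff u (-1)).2 h7
        rw [hu] at h8
        calc v = (v + v0) + v0 := by rw [add_assoc, vm_add_self, add_zero]
          _ = v0 + vm (-1 : (F)ˣ) := by rw [h8, add_comm]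
    · have : vmap (Subfield.inclusion ad.le) ⁻¹' {w} = ∅ := by
        ext v
        simp only [Set.mem_preimage, Set.mem_singleton_iff, Set.mem_empty_iff_false,
          iff_false]
        intro hv
        exact hw ⟨v, hv⟩
      rw [this]
      exact Set.finite_empty
  have h5 := Set.Finite.preimage' (Set.toFinite (Set.univ : Set (VV K))) (fun w _ => h4 w)
  rw [Set.preimage_univ] at h5
  exact Set.finite_univ_iff.1 h5

omit [IsAlgClosed Ω] in
theorem tower_aux (hf : Facts) (hPFZ : EWG.Stmt_PFZ) (B : Base ZW i) (S : ℕ → St ZW s i)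
    (hF : ∀ n, (S n).F ≤ (S (n + 1)).F) (h : ∀ n, (S n).K ≤ (S (n + 1)).K)
    (hc : ∀ n v, (S (n + 1)).π (vmap (Subfield.inclusion (h n)) v) = (S n).π v)
    (hk : ∀ n v, (S n).π v = 0 → vmap (Subfield.inclusion (h n)) v = 0) :
    ∃ (F K : Subfield Ω) (_ : (S 0).F ≤ F) (hK : (S 0).K ≤ K), IsAd F K i ∧ i ∉ F ∧
      Finite (VV F) ∧ (∀ w : VV K, ∃ v, vmap (Subfield.inclusion hK) v = w) ∧
      (∀ v, vmap (Subfield.inclusion hK) v = 0 ↔ (S 0).π v = 0) ∧
      ∀ v v', Zf K (vmap (Subfield.inclusion hK) v) (vmap (Subfield.inclusion hK) v') ↔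
        ZW ((S 0).π v) ((S 0).π v') := by
  have hmono : Monotone fun n => (S n).K := monotone_nat_of_le_succ h
  have hmonoF : Monotone fun n => (S n).F := monotone_nat_of_le_succ hF
  let K : Subfield Ω := ⨆ n, (S n).K
  let F : Subfield Ω := ⨆ n, (S n).F
  have hmem : ∀ x : Ω, x ∈ K ↔ ∃ n, x ∈ (S n).K := fun x =>
    Subfield.mem_iSup_of_directed (hmono.directed_le)
  have hmemF : ∀ x : Ω, x ∈ F ↔ ∃ n, x ∈ (S n).F := fun x =>
    Subfield.mem_iSup_of_directed (hmonoF.directed_le)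
  have hle : ∀ n, (S n).K ≤ K := fun n => le_iSup (fun n => (S n).K) n
  have hleF : ∀ n, (S n).F ≤ F := fun n => le_iSup (fun n => (S n).F) n
  obtain ⟨sec, hs1, hs2, hs3, hs4⟩ := (S 0).fac
  obtain ⟨gK, h1, h2, h3⟩ := unx hPFZ hf.zmp hf.zfl Ω W ZW (fun n => (S n).K) h
    (fun n => (S n).π) (fun n => (S n).good B) hc (fun w => ⟨sec w, hs1 w⟩)
    (by
      intro n v v' hv
      obtain ⟨s', -, -, h3, -⟩ := (S n).fac
      exact h3 v v' hv)
    (fun n v hv => ⟨n + 1, h n, hk n v hv⟩)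
    (by
      intro v v' hv
      refine ⟨1, h 0, ?_⟩
      have h1 : ∀ v, vmap (Subfield.inclusion (h 0)) v =
          vmap (Subfield.inclusion (h 0)) (sec ((S 0).π v)) := by
        intro v
        have h2 : (S 0).π (v - sec ((S 0).π v)) = 0 := by
          rw [map_sub, hs1, sub_self]
        have h3 := hk 0 _ h2
        rw [map_sub, sub_eq_zero] at h3
        exact h3
      have h5 := hf.zmp _ _ (Subfield.inclusion (h 0)) ((S 0).good B) _ _ (hs4 _ _ hv)
      have e1 := h1 v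
      have e2 := h1 v'
      rw [← e1, ← e2] at h5
      exact h5)
    K hmem hle
  have ad : IsAd F K i := by
    intro z
    constructor
    · intro hz
      obtain ⟨n, hn⟩ := (hmem z).1 hz
      obtain ⟨a, ha, b, hb, hab⟩ := ((S n).ad z).1 hn
      exact ⟨a, hleF n ha, b, hleF n hb, hab⟩
    · rintro ⟨a, ha, b, hb, rfl⟩
      obtain ⟨n, hn⟩ := (hmemF a).1 ha
      obtain ⟨m, hm⟩ := (hmemF b).1 hb
      exact add_mem (hle n ((S n).le hn)) (mul_mem (hle m ((S m).le hm)) (hle 0 (S 0).ad.mem))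
  have ni : i ∉ F := by
    intro hi
    obtain ⟨n, hn⟩ := (hmemF i).1 hi
    exact (S n).ni hn
  have finK : Finite (VV K) := by
    have := (S 0).finK hf B
    exact Finite.of_surjective _ h1
  have finF : Finite (VV F) := fin_up hf B.two B.i2 ad ni finK
  exact ⟨F, K, hleF 0, hle 0, ad, ni, finF, h1, h2, h3⟩

theorem tower (hf : Facts) (hPFZ : EWG.Stmt_PFZ) (B : Base ZW i) (S0 : St ZW s i) :
    ∃ (F K : Subfield Ω) (_ : S0.F ≤ F) (hK : S0.K ≤ K), IsAd F K i ∧ i ∉ F ∧ Finite (VV F) ∧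
      (∀ w : VV K, ∃ v, vmap (Subfield.inclusion hK) v = w) ∧
      (∀ v, vmap (Subfield.inclusion hK) v = 0 ↔ S0.π v = 0) ∧
      ∀ v v', Zf K (vmap (Subfield.inclusion hK) v) (vmap (Subfield.inclusion hK) v') ↔
        ZW (S0.π v) (S0.π v') := by
  obtain ⟨S, h0, hS⟩ : ∃ S : ℕ → St ZW s i, S 0 = S0 ∧ ∀ n, Nxt (S n) (S (n + 1)) := by
    choose nx hnx using fun S : St ZW s i => S.nxt hf B
    refine ⟨fun n => nx^[n] S0, rfl, ?_⟩
    intro n
    have : nx^[n + 1] S0 = nx (nx^[n] S0) := Function.iterate_succ_apply' nx n _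
    show Nxt (nx^[n] S0) (nx^[n + 1] S0)
    rw [this]
    exact hnx _
  subst h0
  choose hF h hS' using hS
  exact tower_aux hf hPFZ B S hF h (fun n => (hS' n).1) (fun n => (hS' n).2)

end St

end Pool.Agent.EVL
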