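import Pool.Agent.EVL.STP

/-!
EVL / EQV: one equivariant step of the tower.
-/

set_option autoImplicit false

namespace Pool.Agent.EVL

open Pool.Agent.EWG Pool.Agent.ETG

section
variable {Ω : Type} [Field Ω]

theorem conj_of {F K : Subfield Ω} {i : Ω} (ad : IsAd F K i) (i2 : i ^ 2 = -1) (hi : i ∉ F) :
    ∃ c : K →+* K, ∀ (z : K) (a b : Ω), a ∈ F → b ∈ F → (z : Ω) = a + b * i →
      ((c z : K) : Ω) = a - b * i := by
  let _ : Algebra F K := (Subfield.inclusion ad.le).toAlgebra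
  obtain ⟨E, -, -, h3⟩ := qdo ad ad.le (-1) (by rw [i2]; rfl) hi
  exact ⟨(E.σ : K →+* K), h3⟩

theorem two_of (h2 : (2 : Ω) ≠ 0) (F : Subfield Ω) : (2 : F) ≠ 0 := by
  intro h0
  exact h2 (congrArg Subtype.val h0)

theorem fin_of (hf : Facts) (h2 : (2 : Ω) ≠ 0) {F K : Subfield Ω} {θ : Ω} (ad : IsAd F K θ)
    (hθ : θ ∉ F) (y : (F)ˣ) (hy : ((y : F) : Ω) = θ ^ 2) (hfin : Finite (VV F)) :
    Finite (VV K) := by
  let _ : Algebra F K := (Subfield.inclusion ad.le).toAlgebra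
  obtain ⟨E, -, -, -⟩ := qdo ad ad.le y hy hθ
  exact hf.fin F (two_of h2 F) hfin K E

theorem ker_of (hf : Facts) (h2 : (2 : Ω) ≠ 0) {F K : Subfield Ω} {θ : Ω} (ad : IsAd F K θ)
    (hθ : θ ∉ F) (y : (F)ˣ) (hy : ((y : F) : Ω) = θ ^ 2) (u : (F)ˣ) {x : Ω} (hx : x ∈ K)
    (hxu : x ^ 2 = ((u : F) : Ω)) : IsSquare u ∨ IsSquare (u * y) := by
  let _ : Algebra F K := (Subfield.inclusion ad.le).toAlgebra
  obtain ⟨E, hE, -, -⟩ := qdo ad ad.le y hy hθ
  have h1 : IsSquare (iu F u : (K)ˣ) := isSq_of _ x hx hxu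
  have := ((hf.vkr F K (two_of h2 F) E).2.1 u).1 h1
  rwa [hE] at this

end

namespace St

variable {Ω : Type} [Field Ω] [IsAlgClosed Ω] {W : Type} [AddCommGroup W] [Module (ZMod 2) W]
  {ZW : W → W → Prop} {s : W →ₗ[ZMod 2] W} {i : Ω}

omit [IsAlgClosed Ω] in
theorem finK (hf : Facts) (B : Base ZW i) (S : St ZW s i) : Finite (VV S.K) :=
  fin_of hf B.two S.ad S.ni (-1) (by rw [B.i2]; rfl) S.fin

theorem eqv_step (hf : Facts) (B : Base ZW i) (S : St ZW s i) (f : (S.F)ˣ) (hf1 : ¬ IsSquare f)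
    (hf2 : ¬ IsSquare (-f)) (hπ : S.π (vmap (Subfield.inclusion S.le) (vm f)) = 0) :
    ∃ T : St ZW s i, ∃ (hF : S.F ≤ T.F) (hK : S.K ≤ T.K),
      (∀ v, T.π (vmap (Subfield.inclusion hK) v) = S.π v) ∧
      (vmap (Subfield.inclusion hF) (vm f) = 0 ∨
        vmap (Subfield.inclusion hF) (vm (-f)) = 0) := by
  have i2 := B.i2
  obtain ⟨θ, hθ⟩ := IsAlgClosed.exists_pow_nat_eq ((f : S.F) : Ω) (n := 2) (by norm_num)
  have hθK : θ ∉ S.K := by
    intro h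
    rcases ker_of hf B.two S.ad S.ni (-1) (by rw [B.i2]; rfl) f h hθ with h2 | h2
    · exact hf1 h2
    · rw [mul_neg_one] at h2
      exact hf2 h2
  have hθF : θ ∉ S.F := fun h => hθK (S.le h)
  have hiK : i ∈ S.K := S.ad.mem
  have hiθ : i * θ ∉ S.F := by
    intro h
    apply hθK
    have h1 : θ = -(i * (i * θ)) := by linear_combination θ * i2
    rw [h1]
    exact neg_mem (mul_mem hiK (S.le h))
  let K' : Subfield Ω := SQX_.adj S.K ((f : S.F) : Ω) (S.le (f : S.F).2) θ hθ hθK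
  let F1 : Subfield Ω := SQX_.adj S.F ((f : S.F) : Ω) (f : S.F).2 θ hθ hθF
  let F2 : Subfield Ω := SQX_.adj S.F (-((f : S.F) : Ω)) (neg_mem (f : S.F).2) (i * θ)
    (by rw [mul_pow, hθ, i2]; ring) hiθ
  have adK : IsAd S.K K' θ := fun z => Iff.rfl
  have adF1 : IsAd S.F F1 θ := fun z => Iff.rfl
  have adF2 : IsAd S.F F2 (i * θ) := fun z => Iff.rfl
  have hy1 : ((f : S.F) : Ω) = θ ^ 2 := hθ.symm
  have hy2 : (((-f : (S.F)ˣ) : S.F) : Ω) = (i * θ) ^ 2 := by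
    have : (((-f : (S.F)ˣ) : S.F) : Ω) = -((f : S.F) : Ω) := rfl
    rw [this, mul_pow, hθ, i2]
    ring
  have hiF1 : i ∉ F1 := by
    intro h
    rcases ker_of hf B.two adF1 hθF f hy1 (-1) h (by rw [i2]; rfl) with h2 | h2
    · exact S.nsq B h2
    · rw [neg_one_mul] at h2
      exact hf2 h2
  have hiF2 : i ∉ F2 := by
    intro h
    rcases ker_of hf B.two adF2 hiθ (-f) hy2 (-1) h (by rw [i2]; rfl) with h2 | h2
    · exact S.nsq B h2
    · rw [neg_one_mul, neg_neg] at h2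
      exact hf1 h2
  have hi' : i ∈ K' := adK.le hiK
  have hθ' : θ ∈ K' := adK.mem
  have ad1 : IsAd F1 K' i := by
    intro z
    constructor
    · intro hz
      obtain ⟨u, hu, v, hv, rfl⟩ := (adK z).1 hz
      obtain ⟨a, ha, c, hc, rfl⟩ := (S.ad u).1 hu
      obtain ⟨b, hb, d, hd, rfl⟩ := (S.ad v).1 hv
      exact ⟨a + b * θ, ⟨a, ha, b, hb, rfl⟩, c + d * θ, ⟨c, hc, d, hd, rfl⟩, by ring⟩
    · rintro ⟨u, ⟨a, ha, b, hb, rfl⟩, v, ⟨c, hc, d, hd, rfl⟩, rfl⟩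
      exact add_mem (add_mem (adK.le (S.le ha)) (mul_mem (adK.le (S.le hb)) hθ'))
        (mul_mem (add_mem (adK.le (S.le hc)) (mul_mem (adK.le (S.le hd)) hθ')) hi')
  have ad2 : IsAd F2 K' i := by
    intro z
    constructor
    · intro hz
      obtain ⟨u, hu, v, hv, rfl⟩ := (adK z).1 hz
      obtain ⟨a, ha, c, hc, rfl⟩ := (S.ad u).1 hu
      obtain ⟨b, hb, d, hd, rfl⟩ := (S.ad v).1 hv
      exact ⟨a + d * (i * θ), ⟨a, ha, d, hd, rfl⟩, c + (-b) * (i * θ), ⟨c, hc, -b, neg_mem hb, rfl⟩,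
        by linear_combination (b * θ) * i2⟩
    · rintro ⟨u, ⟨a, ha, b, hb, rfl⟩, v, ⟨c, hc, d, hd, rfl⟩, rfl⟩
      exact add_mem (add_mem (adK.le (S.le ha)) (mul_mem (adK.le (S.le hb)) (mul_mem hi' hθ')))
        (mul_mem (add_mem (adK.le (S.le hc)) (mul_mem (adK.le (S.le hd)) (mul_mem hi' hθ'))) hi')
  obtain ⟨c1, hc1⟩ := conj_of ad1 i2 hiF1
  obtain ⟨c2, hc2⟩ := conj_of ad2 i2 hiF2
  have fin1 : Finite (VV F1) := fin_of hf B.two adF1 hθF f hy1 S.fin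
  have fin2 : Finite (VV F2) := fin_of hf B.two adF2 hiθ (-f) hy2 S.fin
  have gK := S.good B
  have finK := S.finK hf B
  let _ : Algebra S.K K' := (Subfield.inclusion adK.le).toAlgebra
  obtain ⟨E, hEx, hEθ, hE⟩ := qdo adK adK.le (Units.map (Subfield.inclusion S.le).toMonoidHom f)
    hθ.symm hθK
  have gK' : Good K' := Good.map (Subfield.inclusion adK.le) gK
  have finK' : Finite (VV K') := fin_of hf B.two adK hθK
    (Units.map (Subfield.inclusion S.le).toMonoidHom f) hθ.symm finK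
  have hx : S.π (vm E.x) = 0 := by rw [hEx]; exact hπ
  obtain ⟨k', C', hC'⟩ := hf.dec K' gK' finK'
  obtain ⟨k, C, hC, hCj⟩ := hf.dsf S.K K' gK finK E k' C' hC'
  obtain ⟨π1, hFac1, hr1⟩ := hf.sta (VV S.K) (VV K') W (Zf S.K) (Zf K') ZW S.π (rv S.K K')
    (vm E.x) (hf.zfl S.K gK).1 (hf.zfl K' gK').1 B.lw S.fac B.nd B.ind B.ne hx k C hC k' C' hCj
  obtain ⟨-, htwo⟩ := two_proof hf.unq hf.zfl hf.zmp hf.vkg E gK B.lw B.nd B.ind B.ne S.fac hx
    C' hC' hFac1 hr1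
  -- relations between the automorphisms
  have R1 : ∀ z : S.K, c1 (Subfield.inclusion adK.le z) = Subfield.inclusion adK.le (S.c z) := by
    intro z
    obtain ⟨a, ha, b, hb, hz⟩ := (S.ad z).1 z.2
    apply Subtype.ext
    rw [hc1 _ a b (adF1.le ha) (adF1.le hb) hz]
    exact (S.hc z a b ha hb hz).symm
  have hcc1 : ∀ z, c1 (c1 z) = z := by
    intro z
    obtain ⟨a, ha, b, hb, hz⟩ := (ad1 z).1 z.2
    apply Subtype.ext
    rw [hc1 (c1 z) a (-b) ha (neg_mem hb) (by rw [hc1 z a b ha hb hz]; ring), hz]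
    ring
  have R3 : ∀ z, c2 z = c1 (E.σ z) := by
    intro z
    obtain ⟨u, hu, v, hv, hz⟩ := (adK z).1 z.2
    obtain ⟨a, ha, c, hc, rfl⟩ := (S.ad u).1 hu
    obtain ⟨b, hb, d, hd, rfl⟩ := (S.ad v).1 hv
    apply Subtype.ext
    rw [hc1 (E.σ z) (a + (-b) * θ) (c + (-d) * θ) ⟨a, ha, -b, neg_mem hb, rfl⟩
        ⟨c, hc, -d, neg_mem hd, rfl⟩ (by rw [hE z _ _ hu hv hz]; ring),
      hc2 z (a + d * (i * θ)) (c + (-b) * (i * θ)) ⟨a, ha, d, hd, rfl⟩
        ⟨c, hc, -b, neg_mem hb, rfl⟩ (by rw [hz]; linear_combination (b * θ) * i2)]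
    linear_combination (b * θ) * i2
  have Z1 : ∀ v w, Zf K' v w → Zf K' (vmap c1 v) (vmap c1 w) := hf.zmp _ _ _ gK'
  have hF2 : Fac (Zf K') ZW (s.comp (π1.comp (vmap c1))) :=
    fac_cod (fac_aut hFac1 (vmap c1) (vmap c1) (vmap_aut _ _ hcc1) (vmap_aut _ _ hcc1) Z1 Z1)
      s s S.ss S.ss (fun _ _ h => S.sZ B hf h) (fun _ _ h => S.sZ B hf h)
  have hr2 : ∀ v, (s.comp (π1.comp (vmap c1))) (rv S.K K' v) = S.π v := by
    intro v
    show s (π1 (vmap c1 (vmap (Subfield.inclusion adK.le) v))) = S.π v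
    have h1 : vmap c1 (vmap (Subfield.inclusion adK.le) v) =
        vmap (Subfield.inclusion adK.le) (vmap S.c v) := by
      have h3 : c1.comp (Subfield.inclusion adK.le) = (Subfield.inclusion adK.le).comp S.c :=
        RingHom.ext R1
      rw [vmap_comp, h3, ← vmap_comp]
    have h2 : π1 (vmap (Subfield.inclusion adK.le) (vmap S.c v)) = S.π (vmap S.c v) := hr1 _
    rw [h1, h2, S.eqv, S.ss]
  rcases htwo _ hF2 hr2 with hA | hA
  · refine ⟨{ F := F1, K := K', ad := ad1, ni := hiF1, fin := fin1, π := π1, fac := hFac1,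
              c := c1, hc := hc1, eqv := ?_ }, adF1.le, adK.le, hr1, ?_⟩
    · intro v
      have h1 : s (π1 (vmap c1 v)) = π1 v := hA v
      rw [← h1, S.ss]
    · left
      rw [vmap_vm, vm_eq_zero]
      exact isSq_of _ θ adF1.mem hθ
  · refine ⟨{ F := F2, K := K', ad := ad2, ni := hiF2, fin := fin2, π := π1, fac := hFac1,
              c := c2, hc := hc2, eqv := ?_ }, adF2.le, adK.le, hr1, ?_⟩
    · intro v
      have h1 : s (π1 (vmap c1 (vmap (E.σ : K' →+* K') v))) =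
          π1 (vmap (E.σ : K' →+* K') (vmap (E.σ : K' →+* K') v)) := hA _
      rw [vmap_aut (E.σ : K' →+* K') (E.σ : K' →+* K') (qd_ss E) v] at h1
      have h2 : vmap c2 v = vmap c1 (vmap (E.σ : K' →+* K') v) := by
        have h3 : c2 = c1.comp (E.σ : K' →+* K') := RingHom.ext R3
        rw [vmap_comp, h3]
      rw [h2, ← h1, S.ss]
    · right
      rw [vmap_vm, vm_eq_zero]
      exact isSq_of _ (i * θ) adF2.mem hy2.symm

end St

end Pool.Agent.EVL
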