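import Pool.Agent.EVL.EQV

/-!
EVL / KIL: a square class with component `0` can be killed.
-/

set_option autoImplicit false

namespace Pool.Agent.EVL

open Pool.Agent.EWG Pool.Agent.ETG

namespace St

variable {Ω : Type} [Field Ω] [IsAlgClosed Ω] {W : Type} [AddCommGroup W] [Module (ZMod 2) W]
  {ZW : W → W → Prop} {s : W →ₗ[ZMod 2] W} {i : Ω}

theorem ne_step (hf : Facts) (B : Base ZW i) (S : St ZW s i) (z : (S.K)ˣ)
    (hz : S.π (vm z) = 0) (a : Ω) (ha : a ∈ S.F)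
    (h : ((z : S.K) : Ω) * ((S.c z : S.K) : Ω) = -(a ^ 2)) : False := by
  have i2 := B.i2
  have hiK : i ∈ S.K := S.ad.mem
  have hz0 : ((z : S.K) : Ω) ≠ 0 := fun h0 => z.ne_zero (Subtype.ext h0)
  have hcz0 : ((S.c z : S.K) : Ω) ≠ 0 := by
    intro h0
    have h1 : S.c z = 0 := Subtype.ext h0
    have h2 := S.cc (z : S.K)
    rw [h1, map_zero] at h2
    exact z.ne_zero h2.symm
  have ha0 : a ≠ 0 := by
    rintro rfl
    rw [zero_pow (by norm_num), neg_zero] at h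
    exact (mul_ne_zero hz0 hcz0) h
  obtain ⟨θ, hθ⟩ := IsAlgClosed.exists_pow_nat_eq ((z : S.K) : Ω) (n := 2) (by norm_num)
  have hθK : θ ∉ S.K := by
    intro hm
    obtain ⟨u, hu, v, hv, huv⟩ := (S.ad θ).1 hm
    have h1 : ((S.c ⟨θ, hm⟩ : S.K) : Ω) = u - v * i := S.hc _ u v hu hv huv
    have h2 : (z : S.K) = ⟨θ, hm⟩ * ⟨θ, hm⟩ := by
      apply Subtype.ext
      show ((z : S.K) : Ω) = θ * θ
      rw [← hθ, pow_two]
    have h3 : ((S.c z : S.K) : Ω) = (u - v * i) * (u - v * i) := by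
      rw [h2, map_mul, ← h1]
      rfl
    rw [h3, ← hθ, huv] at h
    apply S.nsq B
    refine isSq_of _ ((u ^ 2 + v ^ 2) / a) (div_mem (add_mem (pow_mem hu 2) (pow_mem hv 2)) ha) ?_
    have h4 : (u ^ 2 + v ^ 2) ^ 2 = -(a ^ 2) := by
      rw [← h]
      linear_combination (u ^ 2 + v ^ 2 + (u ^ 2 - v ^ 2 * i ^ 2)) * v ^ 2 * i2
    rw [div_pow, h4, neg_div, div_self (pow_ne_zero 2 ha0)]
    rfl
  let K' : Subfield Ω := SQX_.adj S.K ((z : S.K) : Ω) (z : S.K).2 θ hθ hθK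
  have adK : IsAd S.K K' θ := fun z => Iff.rfl
  have gK := S.good B
  have finK := S.finK hf B
  let _ : Algebra S.K K' := (Subfield.inclusion adK.le).toAlgebra
  obtain ⟨E, hEx, hEθ, hE⟩ := qdo adK adK.le z hθ.symm hθK
  have gK' : Good K' := Good.map (Subfield.inclusion adK.le) gK
  have finK' : Finite (VV K') := fin_of hf B.two adK hθK z hθ.symm finK
  have hx : S.π (vm E.x) = 0 := by rw [hEx]; exact hz
  obtain ⟨k', C', hC'⟩ := hf.dec K' gK' finK'
  obtain ⟨k, C, hC, hCj⟩ := hf.dsf S.K K' gK finK E k' C' hC'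
  obtain ⟨π1, hFac1, hr1⟩ := hf.sta (VV S.K) (VV K') W (Zf S.K) (Zf K') ZW S.π (rv S.K K')
    (vm E.x) (hf.zfl S.K gK).1 (hf.zfl K' gK').1 B.lw S.fac B.nd B.ind B.ne hx k C hC k' C' hCj
  obtain ⟨hne, htwo⟩ := two_proof hf.unq hf.zfl hf.zmp hf.vkg E gK B.lw B.nd B.ind B.ne S.fac hx
    C' hC' hFac1 hr1
  -- the element `m = i a`
  let m : S.K := ⟨a * i, mul_mem (S.le ha) hiK⟩
  have hm2 : m ^ 2 = (E.x : S.K) * S.c E.x := by
    apply Subtype.ext
    rw [hEx]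
    show (a * i) ^ 2 = ((z : S.K) : Ω) * ((S.c z : S.K) : Ω)
    rw [h, mul_pow, i2]
    ring
  have hcm : S.c m = -m := by
    apply Subtype.ext
    rw [S.hc m 0 a (zero_mem _) ha (by show a * i = _; ring)]
    show 0 - a * i = -(a * i)
    ring
  have hθ0 : (E.θ : K') ≠ 0 := E.θ.ne_zero
  have hx0 : algebraMap S.K K' (E.x : S.K) ≠ 0 := by
    rw [← E.sq]
    exact pow_ne_zero 2 hθ0
  have hm0 : m ≠ 0 := by
    intro h0
    have h1 := congrArg Subtype.val h0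
    have h2 : a * i = 0 := h1
    rcases mul_eq_zero.1 h2 with h3 | h3
    · exact ha0 h3
    · rw [h3] at i2
      norm_num at i2
  have hm0' : algebraMap S.K K' m ≠ 0 := by
    rw [Ne, map_eq_zero]
    exact hm0
  obtain ⟨g, hg1, hg2⟩ := ext_aut E S.c (algebraMap S.K K' m / E.θ) (by
    rw [div_pow, E.sq, ← map_pow, hm2, map_mul, mul_comm, mul_div_assoc, div_self hx0, mul_one])
  have hgm : g (algebraMap S.K K' m / E.θ) = -E.θ := by
    rw [map_div₀, hg1, hcm, hg2, map_neg, neg_div]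
    congr 1
    field_simp
  have hgg : ∀ w, g (g w) = E.σ w := by
    intro w
    conv_lhs => rw [E.dec w]
    conv_rhs => rw [E.dec w]
    rw [qd_sigma, map_add, map_mul, hg1, hg1, hg2, map_add, map_mul, hg1, hg1, hgm, S.cc, S.cc]
    ring
  have hff : ∀ v, vmap g (vmap g v) = vmap (E.σ : K' →+* K') v := by
    intro v
    have h3 : g.comp g = (E.σ : K' →+* K') := RingHom.ext hgg
    rw [vmap_comp, h3]
  have hττ := vmap_aut (E.σ : K' →+* K') (E.σ : K' →+* K') (qd_ss E)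
  have hf4 : ∀ v, vmap g (vmap g (vmap g (vmap g v))) = v := by
    intro v
    rw [hff, hff, hττ]
  have Z1 : ∀ v w, Zf K' v w → Zf K' (vmap g v) (vmap g w) := hf.zmp _ _ _ gK'
  have hF2 : Fac (Zf K') ZW (s.comp (π1.comp (vmap g))) :=
    fac_cod (fac_aut hFac1 (vmap g) ((vmap g).comp ((vmap g).comp (vmap g))) hf4 hf4 Z1
      (fun v w h => Z1 _ _ (Z1 _ _ (Z1 _ _ h))))
      s s S.ss S.ss (fun _ _ h => S.sZ B hf h) (fun _ _ h => S.sZ B hf h)
  have hr2 : ∀ v, (s.comp (π1.comp (vmap g))) (rv S.K K' v) = S.π v := by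
    intro v
    show s (π1 (vmap g (vmap (algebraMap S.K K') v))) = S.π v
    have h3 : g.comp (algebraMap S.K K') = (algebraMap S.K K').comp S.c := RingHom.ext hg1
    have h1 : vmap g (vmap (algebraMap S.K K') v) =
        vmap (algebraMap S.K K') (vmap S.c v) := by
      rw [vmap_comp, h3, ← vmap_comp]
    have h2 : π1 (vmap (algebraMap S.K K') (vmap S.c v)) = S.π (vmap S.c v) := hr1 _
    rw [h1, h2, S.eqv, S.ss]
  have key : (∀ v, π1 (vmap g v) = s (π1 v)) → False := by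
    intro hk
    apply hne
    intro v
    rw [← hff, hk, hk, S.ss]
  rcases htwo _ hF2 hr2 with hA | hA
  · apply key
    intro v
    have h1 : s (π1 (vmap g v)) = π1 v := hA v
    rw [← h1, S.ss]
  · apply key
    intro v
    have h1 : s (π1 (vmap g (vmap g (vmap g (vmap g v))))) =
      π1 (vmap (E.σ : K' →+* K') (vmap g (vmap g (vmap g v)))) := hA _
    rw [hf4, hff, ← hff, hff, hττ] at h1
    exact h1.symm

/-- the class of a unit of `F` dies -/
theorem kill0 (hf : Facts) (B : Base ZW i) (S : St ZW s i) (f : (S.F)ˣ)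
    (hπ : S.π (vmap (Subfield.inclusion S.le) (vm f)) = 0) :
    ∃ T : St ZW s i, ∃ (_ : S.F ≤ T.F) (hK : S.K ≤ T.K),
      (∀ v, T.π (vmap (Subfield.inclusion hK) v) = S.π v) ∧
      vmap (Subfield.inclusion hK) (vmap (Subfield.inclusion S.le) (vm f)) = 0 := by
  have i2 := B.i2
  by_cases h1 : IsSquare f
  · refine ⟨S, le_rfl, le_rfl, fun v => by rw [vmap_refl'], ?_⟩
    rw [(vm_eq_zero f).2 h1, map_zero, map_zero]
  by_cases h2 : IsSquare (-f)
  · refine ⟨S, le_rfl, le_rfl, fun v => by rw [vmap_refl'], ?_⟩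
    obtain ⟨x, hx, hx2⟩ := sq_of h2
    have h3 : (vmap (Subfield.inclusion S.le) (vm f)) = 0 := by
      rw [vmap_vm, vm_eq_zero]
      refine isSq_of _ (i * x) (mul_mem S.ad.mem (S.le hx)) ?_
      rw [mul_pow, hx2, i2]
      show (-1) * -((f : S.F) : Ω) = ((f : S.F) : Ω)
      ring
    rw [h3, map_zero]
  obtain ⟨T, hF, hK, hT, h3⟩ := S.eqv_step hf B f h1 h2 hπ
  refine ⟨T, hF, hK, hT, ?_⟩
  rw [vmap_incl' S.le hK (hF.trans T.le), ← vmap_incl' hF T.le]
  rcases h3 with h3 | h3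
  · rw [h3, map_zero]
  · rw [vmap_vm, vm_eq_zero] at h3
    obtain ⟨x, hx, hx2⟩ := sq_of h3
    rw [vmap_vm, vmap_vm, vm_eq_zero]
    refine isSq_of _ (i * x) (mul_mem T.ad.mem (T.le hx)) ?_
    rw [mul_pow, hx2, i2]
    show (-1) * -((f : S.F) : Ω) = ((f : S.F) : Ω)
    ring

omit [IsAlgClosed Ω] in
theorem norm_sq (hf : Facts) (B : Base ZW i) (S : St ZW s i) (a : (S.K)ˣ) {x : Ω}
    (hx : x ∈ S.F) (h : x ^ 2 = ((a : S.K) : Ω) * ((S.c a : S.K) : Ω)) :
    ∃ f : (S.F)ˣ, vm a = vmap (Subfield.inclusion S.le) (vm f) := by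
  let _ : Algebra S.F S.K := (Subfield.inclusion S.le).toAlgebra
  obtain ⟨E, -, -, hEc⟩ := S.qd B
  have h1 : IsSquare (E.nm a) := by
    refine isSq_of _ x hx ?_
    have h2 := congrArg (fun z : S.K => (z : Ω)) (E.nmσ a)
    rw [h, ← hEc]
    exact h2.symm
  obtain ⟨f, hf1⟩ := ((hf.vkr S.F S.K (two B S.F) E).1 a).1 h1
  exact ⟨f, (vm_eq_iff _ _).2 hf1⟩

theorem kill (hf : Facts) (B : Base ZW i) (S : St ZW s i) (z : VV S.K) (hz : S.π z = 0) :
    ∃ T : St ZW s i, ∃ (_ : S.F ≤ T.F) (hK : S.K ≤ T.K),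
      (∀ v, T.π (vmap (Subfield.inclusion hK) v) = S.π v) ∧
      vmap (Subfield.inclusion hK) z = 0 := by
  have i2 := B.i2
  obtain ⟨a, rfl⟩ := vm_surj z
  -- the norm of `a`
  obtain ⟨f, hfa⟩ : ∃ f : (S.F)ˣ, ((f : S.F) : Ω) = ((a : S.K) : Ω) * ((S.c a : S.K) : Ω) := by
    let _ : Algebra S.F S.K := (Subfield.inclusion S.le).toAlgebra
    obtain ⟨E, -, -, hEc⟩ := S.qd B
    refine ⟨E.nm a, ?_⟩
    have h2 := congrArg (fun z : S.K => (z : Ω)) (E.nmσ a)
    rw [← hEc]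
    exact h2
  by_cases h1 : IsSquare f
  · obtain ⟨x, hx, hx2⟩ := sq_of h1
    obtain ⟨f', hf'⟩ := S.norm_sq hf B a hx (hx2.trans hfa)
    rw [hf'] at hz ⊢
    exact S.kill0 hf B f' hz
  by_cases h2 : IsSquare (-f)
  · exfalso
    obtain ⟨x, hx, hx2⟩ := sq_of h2
    have h3 : x ^ 2 = -((f : S.F) : Ω) := hx2
    exact S.ne_step hf B a hz x hx (by rw [← hfa, h3, neg_neg])
  have hπ : S.π (vmap (Subfield.inclusion S.le) (vm f)) = 0 := by
    have h3 : vmap (Subfield.inclusion S.le) (vm f) = vm a + vmap S.c (vm a) := by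
      rw [vmap_vm, vmap_vm, ← vm_mul]
      congr 1
      apply Units.ext
      apply Subtype.ext
      exact hfa
    rw [h3, map_add, hz, S.eqv, hz, map_zero, add_zero]
  obtain ⟨T, hF, hK, hT, h3⟩ := S.eqv_step hf B f h1 h2 hπ
  have hc : ((T.c (Subfield.inclusion hK a) : T.K) : Ω) = ((S.c a : S.K) : Ω) := by
    obtain ⟨u, hu, v, hv, huv⟩ := (S.ad _).1 (a : S.K).2
    rw [S.hc a u v hu hv huv]
    exact T.hc _ u v (hF hu) (hF hv) huv
  have hzT : T.π (vm (Units.map (Subfield.inclusion hK).toMonoidHom a)) = 0 := by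
    rw [← vmap_vm, hT, hz]
  rcases h3 with h3 | h3
  · rw [vmap_vm, vm_eq_zero] at h3
    obtain ⟨x, hx, hx2⟩ := sq_of h3
    obtain ⟨f', hf'⟩ := T.norm_sq hf B (Units.map (Subfield.inclusion hK).toMonoidHom a) hx
      (by
        rw [hx2]
        refine hfa.trans ?_
        rw [← hc]
        rfl)
    rw [hf'] at hzT
    obtain ⟨U, hF', hK', hU, h4⟩ := T.kill0 hf B f' hzT
    refine ⟨U, hF.trans hF', hK.trans hK', ?_, ?_⟩
    · intro v
      rw [← vmap_incl' hK hK', hU, hT]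
    · rw [← vmap_incl' hK hK', vmap_vm (Subfield.inclusion hK), hf']
      exact h4
  · exfalso
    rw [vmap_vm, vm_eq_zero] at h3
    obtain ⟨x, hx, hx2⟩ := sq_of h3
    have h4 : x ^ 2 = -((f : S.F) : Ω) := hx2
    refine T.ne_step hf B _ hzT x hx ?_
    rw [h4, neg_neg, hfa, ← hc]
    rfl

end St

end Pool.Agent.EVL
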