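import Pool.Agent.EVL.CHN

/-!
EVL / LOC: localisation at a component fixed by the conjugation.
-/

set_option autoImplicit false

noncomputable section

namespace Pool.Agent.EVL

open Pool.Agent.EWG Pool.Agent.ETG

theorem fac_iso {V V' W : Type} [AddCommGroup V] [Module (ZMod 2) V] [AddCommGroup V']
    [Module (ZMod 2) V'] [AddCommGroup W] [Module (ZMod 2) W] {Z : V → V → Prop}
    {Z' : V' → V' → Prop} {ZW : W → W → Prop} {π : V →ₗ[ZMod 2] W} (hF : Fac Z ZW π)
    (f : V' →ₗ[ZMod 2] V) (g : V →ₗ[ZMod 2] V') (hfg : ∀ v, f (g v) = v)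
    (hgf : ∀ v, g (f v) = v) (hf : ∀ v w, Z' v w → Z (f v) (f w))
    (hg : ∀ v w, Z v w → Z' (g v) (g w)) : Fac Z' ZW (π.comp f) := by
  obtain ⟨s, h1, h2, h3, h4⟩ := hF
  refine ⟨g.comp s, ?_, ?_, ?_, ?_⟩
  · intro w
    show π (f (g (s w))) = w
    rw [hfg, h1]
  · intro w u hu
    have h5 := hg _ _ (h2 w (f u) hu)
    rw [hgf] at h5
    exact h5
  · intro v v' h
    exact h3 _ _ (hf _ _ h)
  · intro w w' h
    exact hg _ _ (h4 _ _ h)

theorem loc_of (hf : Facts) (hPFZ : EWG.Stmt_PFZ) (hLZR : Stmt_LZR) : Stmt_LOC := by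
  intro F K _ _ _ E h2 hEx hfin k C hC j hj
  -- the algebraic closure
  let Ω := AlgebraicClosure K
  let j0 : K →+* Ω := algebraMap K Ω
  let i : Ω := j0 E.θ
  have i2 : i ^ 2 = -1 := by
    show j0 E.θ ^ 2 = -1
    rw [← map_pow, E.sq, hEx, Units.val_neg, Units.val_one, map_neg, map_one, map_neg, map_one]
  have h2K : (2 : K) ≠ 0 := by
    have := (map_ne_zero (algebraMap F K)).2 h2
    rwa [map_ofNat] at this
  have h2Ω : (2 : Ω) ≠ 0 := by
    have := (map_ne_zero j0).2 h2K
    rwa [map_ofNat] at this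
  let K0 : Subfield Ω := j0.fieldRange
  let F0 : Subfield Ω := (j0.comp (algebraMap F K)).fieldRange
  have hK0 : ∀ a : K, j0 a ∈ K0 := fun a => ⟨a, rfl⟩
  have hF0 : ∀ a : F, j0 (algebraMap F K a) ∈ F0 := fun a => ⟨a, rfl⟩
  have ad : IsAd F0 K0 i := by
    intro z
    constructor
    · rintro ⟨w, rfl⟩
      refine ⟨_, hF0 (E.t w), _, hF0 (E.s w), ?_⟩
      conv_lhs => rw [E.dec w]
      rw [map_add, map_mul]
    · rintro ⟨_, ⟨a, rfl⟩, _, ⟨b, rfl⟩, rfl⟩
      refine ⟨algebraMap F K a + algebraMap F K b * E.θ, ?_⟩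
      rw [map_add, map_mul]
      rfl
  have hs : E.s E.θ = 1 := by
    have := E.sθ 1
    rwa [map_one, one_mul] at this
  have ni : i ∉ F0 := by
    rintro ⟨a, ha⟩
    have h3 : algebraMap F K a = E.θ := j0.injective ha
    have h4 := E.s1 a
    rw [h3, hs] at h4
    exact one_ne_zero h4
  -- isomorphisms
  let gF : F →+* F0 := (j0.comp (algebraMap F K)).rangeRestrictField
  let gK : K →+* K0 := j0.rangeRestrictField
  have hgKb : Function.Bijective gK := j0.rangeRestrictField_bijective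
  let eK : K ≃+* K0 := RingEquiv.ofBijective gK hgKb
  let gi : K0 →+* K := (eK.symm : K0 →+* K)
  have hgi : ∀ a, gi (gK a) = a := fun a => eK.symm_apply_apply a
  have hig : ∀ a, gK (gi a) = a := fun a => eK.apply_symm_apply a
  have hgKv : ∀ a, ((gK a : K0) : Ω) = j0 a := fun a => rfl
  have fin0 : Finite (VV F0) := by
    apply Finite.of_surjective (vmap gF)
    intro v
    obtain ⟨u, rfl⟩ := vm_surj v
    obtain ⟨a, ha⟩ := (j0.comp (algebraMap F K)).rangeRestrictField_bijective.2 (u : F0)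
    have ha0 : a ≠ 0 := by
      rintro rfl
      rw [map_zero] at ha
      exact u.ne_zero ha.symm
    refine ⟨vm (Units.mk0 a ha0), ?_⟩
    rw [vmap_vm]
    congr 1
    exact Units.ext ha
  have gK' : Good K := ⟨h2K, (E.θ : K), by
    rw [E.sq, hEx, Units.val_neg, Units.val_one, map_neg, map_one]⟩
  have gK0 : Good K0 := Good.map gK gK'
  -- the factor
  obtain ⟨hLW, hND, hInd, hne, hFac⟩ := hLZR (VV K) (Zf K) (hf.zfl K gK').1 k C hC j
  set W := LinearMap.range (C.p j) with hW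
  let π0 : VV K0 →ₗ[ZMod 2] W := (C.p j).rangeRestrict.comp (vmap gi)
  have hvi : ∀ v, vmap gi (vmap gK v) = v := by
    intro v
    rw [vmap_comp, show gi.comp gK = RingHom.id K from RingHom.ext hgi, vmap_id]
  have hiv : ∀ v, vmap gK (vmap gi v) = v := by
    intro v
    rw [vmap_comp, show gK.comp gi = RingHom.id K0 from RingHom.ext hig, vmap_id]
  have hFac0 : Fac (Zf K0) (ZR (Zf K) W) π0 :=
    fac_iso hFac (vmap gi) (vmap gK) hvi hiv (hf.zmp _ _ gi gK0) (hf.zmp _ _ gK gK')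
  let σ : K →+* K := (E.σ : K →+* K)
  let s : W →ₗ[ZMod 2] W := (C.p j).rangeRestrict.comp ((vmap σ).comp W.subtype)
  let c : K0 →+* K0 := gK.comp (σ.comp gi)
  have hc : ∀ (z : K0) (a b : Ω), a ∈ F0 → b ∈ F0 → (z : Ω) = a + b * i →
      ((c z : K0) : Ω) = a - b * i := by
    rintro z _ _ ⟨a, rfl⟩ ⟨b, rfl⟩ hz
    have h3 : z = gK (algebraMap F K a + algebraMap F K b * E.θ) := by
      apply Subtype.ext
      rw [hz, hgKv, map_add, map_mul]
      rfl
    have h4 : c z = gK (algebraMap F K a - algebraMap F K b * E.θ) := by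
      show gK (E.σ (gi z)) = _
      rw [h3, hgi, qd_sigma]
    rw [h4, hgKv, map_sub, map_mul]
    rfl
  have eqv : ∀ v, π0 (vmap c v) = s (π0 v) := by
    intro v
    apply Subtype.ext
    show C.p j (vmap gi (vmap c v)) = C.p j (vmap σ (C.p j (vmap gi v)))
    have h5 : gi.comp c = σ.comp gi := by
      apply RingHom.ext
      intro z
      exact hgi _
    rw [vmap_comp, h5, ← vmap_comp]
    have h6 := hj (vmap gi v - C.p j (vmap gi v)) (by rw [map_sub, C.idem, sub_self])
    rw [map_sub, map_sub, sub_eq_zero] at h6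
    exact h6
  let S : St (ZR (Zf K) W) s i :=
    { F := F0, K := K0, ad := ad, ni := ni, fin := fin0, π := π0, fac := hFac0, c := c,
      hc := hc, eqv := eqv }
  have B : Base (ZR (Zf K) W) i := ⟨h2Ω, i2, hLW, hND, hInd, hne⟩
  obtain ⟨F', K', hF, hK, ad', ni', fin', r1, r2, r3⟩ := S.tower hf hPFZ B
  let _ : Algebra F' K' := (Subfield.inclusion ad'.le).toAlgebra
  obtain ⟨E', hEx', hEθ', hE'⟩ := qdo ad' ad'.le (-1) (by rw [i2]; rfl) ni'
  let f : F →+* F' := (Subfield.inclusion hF).comp gF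
  let g : K →+* K' := (Subfield.inclusion hK).comp gK
  have hgv : ∀ a, ((g a : K') : Ω) = j0 a := fun a => rfl
  have hfv : ∀ a, ((f a : F') : Ω) = j0 (algebraMap F K a) := fun a => rfl
  have hgd : ∀ v, vmap g v = vmap (Subfield.inclusion hK) (vmap gK v) := by
    intro v
    rw [vmap_comp]
  have hπ : ∀ v, S.π (vmap gK v) = (C.p j).rangeRestrict v := by
    intro v
    show (C.p j).rangeRestrict (vmap gi (vmap gK v)) = _
    rw [hvi]
  refine ⟨F', K', inferInstance, inferInstance, inferInstance, E', f, g, hEx', fin', ?_, ?_, ?_,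
    ?_, ?_, ?_⟩
  · intro a
    exact Subtype.ext rfl
  · apply Subtype.ext
    rw [hEθ']
    rfl
  · intro a
    apply Subtype.ext
    rw [hE' (g a) (j0 (algebraMap F K (E.t a))) (j0 (algebraMap F K (E.s a))) (hF (hF0 _))
      (hF (hF0 _)) (by
        rw [hgv]
        conv_lhs => rw [E.dec a]
        rw [map_add, map_mul]), hgv]
    conv_lhs => rw [E.dec a]
    rw [qd_sigma, map_sub, map_mul]
  · intro w
    obtain ⟨v, hv⟩ := r1 w
    refine ⟨vmap gi v, ?_⟩
    rw [hgd, hiv, hv]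
  · intro v
    rw [hgd, r2, hπ]
    constructor
    · intro h
      exact congrArg Subtype.val h
    · intro h
      exact Subtype.ext h
  · intro v w
    rw [hgd, hgd, r3, hπ, hπ]
    rfl

end Pool.Agent.EVL
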