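import Pool.Agent.EVL.Defs
import Pool.Agent.ETG.SQX

/-!
EVL / QDO: quadratic extensions inside a field `Ω`; extension of automorphisms.
-/

set_option autoImplicit false

namespace Pool.Agent.EVL

open Pool.Agent.EWG Pool.Agent.ETG

/-- `K = F + F θ` -/
def IsAd {Ω : Type} [Field Ω] (F K : Subfield Ω) (θ : Ω) : Prop :=
  ∀ z, z ∈ K ↔ ∃ a ∈ F, ∃ b ∈ F, z = a + b * θ

theorem IsAd.le {Ω : Type} [Field Ω] {F K : Subfield Ω} {θ : Ω} (h : IsAd F K θ) : F ≤ K :=
  fun a ha => (h a).2 ⟨a, ha, 0, zero_mem _, by ring⟩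

theorem IsAd.mem {Ω : Type} [Field Ω] {F K : Subfield Ω} {θ : Ω} (h : IsAd F K θ) : θ ∈ K :=
  (h θ).2 ⟨0, zero_mem _, 1, one_mem _, by ring⟩

/-- the datum `QD` with a given generator -/
theorem qd_of' {F K : Type} [Field F] [Field K] [Algebra F K] (θ : K) (x : F)
    (hsq : θ ^ 2 = algebraMap F K x) (hθF : ∀ a : F, algebraMap F K a ≠ θ)
    (hspan : ∀ z : K, ∃ a b : F, z = algebraMap F K a + algebraMap F K b * θ) :
    ∃ E : QD F K, (E.x : F) = x ∧ (E.θ : K) = θ := by
  obtain ⟨E, hE⟩ := ETT.QDX_.qd_of θ x hsq hθF hspan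
  have h3 : ((E.θ : K) - θ) * (E.θ + θ) = 0 := by
    have := E.sq
    rw [hE, ← hsq] at this
    linear_combination this
  rcases mul_eq_zero.1 h3 with h4 | h4
  · exact ⟨E, hE, sub_eq_zero.1 h4⟩
  · have h5 : θ = -E.θ := by linear_combination h4
    refine ⟨
      { x := E.x
        θ := -E.θ
        t := E.t
        s := -E.s
        σ := E.σ
        nm := E.nm
        sq := ?_
        ns := E.ns
        dec := ?_
        t1 := E.t1
        tθ := ?_
        s1 := ?_
        sθ := ?_
        σθ := ?_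
        nmσ := E.nmσ
        nmt := ?_ }, hE, ?_⟩
    · rw [Units.val_neg, neg_sq, E.sq]
    · intro w
      rw [LinearMap.neg_apply, map_neg, Units.val_neg, neg_mul_neg]
      exact E.dec w
    · intro a
      have := E.tθ (-a)
      rwa [map_neg, neg_mul, ← mul_neg] at this
    · intro a
      rw [LinearMap.neg_apply, E.s1, neg_zero]
    · intro a
      rw [LinearMap.neg_apply, Units.val_neg, mul_neg, map_neg, neg_neg, E.sθ]
    · rw [Units.val_neg, map_neg, E.σθ]
    · intro w
      rw [LinearMap.neg_apply, neg_sq]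
      exact E.nmt w
    · rw [h5]
      rfl

theorem qd_sigma {F K : Type} [Field F] [Field K] [Algebra F K] (E : QD F K) (a b : F) :
    E.σ (algebraMap F K a + algebraMap F K b * E.θ) =
      algebraMap F K a - algebraMap F K b * E.θ := by
  rw [map_add, map_mul, E.σθ, E.σ.commutes, E.σ.commutes]
  ring

/-- quadratic extensions inside `Ω` -/
theorem qdo {Ω : Type} [Field Ω] {F K : Subfield Ω} {θ : Ω} (h : IsAd F K θ)
    (hle : F ≤ K) (y : (F)ˣ) (hy : ((y : F) : Ω) = θ ^ 2) (hθ : θ ∉ F) :
    letI : Algebra F K := (Subfield.inclusion hle).toAlgebra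
    ∃ E : QD F K, E.x = y ∧ ((E.θ : K) : Ω) = θ ∧
      ∀ (z : K) (a b : Ω), a ∈ F → b ∈ F → (z : Ω) = a + b * θ → ((E.σ z : K) : Ω) = a - b * θ := by
  let _ : Algebra F K := (Subfield.inclusion hle).toAlgebra
  have hmap : ∀ a : F, ((algebraMap F K a : K) : Ω) = a := fun a => rfl
  obtain ⟨E, hE, hEθ⟩ := qd_of' (F := F) (K := K) ⟨θ, h.mem⟩ (y : F)
    (by
      apply Subtype.ext
      rw [hmap, hy]
      rfl)
    (by
      intro a ha
      apply hθ
      have h1 := congrArg (fun z : K => (z : Ω)) ha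
      simp only at h1
      rw [hmap] at h1
      rw [← h1]
      exact a.2)
    (by
      intro z
      obtain ⟨a, ha, b, hb, hz⟩ := (h z).1 z.2
      refine ⟨⟨a, ha⟩, ⟨b, hb⟩, ?_⟩
      apply Subtype.ext
      exact hz)
  refine ⟨E, Units.ext hE, by rw [hEθ], ?_⟩
  intro z a b ha hb hz
  have h3 : z = algebraMap F K ⟨a, ha⟩ + algebraMap F K ⟨b, hb⟩ * E.θ := by
    apply Subtype.ext
    rw [hEθ]
    exact hz
  rw [h3, qd_sigma, hEθ]
  rfl

/-- multiplication in coordinates -/
theorem qd_mul {F K : Type} [Field F] [Field K] [Algebra F K] (E : QD F K) (z w : K) :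
    E.t (z * w) = E.t z * E.t w + E.x * (E.s z * E.s w) ∧
    E.s (z * w) = E.t z * E.s w + E.s z * E.t w := by
  have h : z * w = algebraMap F K (E.t z * E.t w + E.x * (E.s z * E.s w)) +
      algebraMap F K (E.t z * E.s w + E.s z * E.t w) * E.θ := by
    conv_lhs => rw [E.dec z, E.dec w]
    simp only [map_add, map_mul]
    linear_combination (algebraMap F K (E.s z) * algebraMap F K (E.s w)) * E.sq
  constructor
  · rw [h, map_add, E.t1, E.tθ, add_zero]
  · rw [h, map_add, E.s1, E.sθ, zero_add]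

/-- extension of an endomorphism to a quadratic extension -/
theorem ext_aut {K K' : Type} [Field K] [Field K'] [Algebra K K'] (E : QD K K') (σ : K →+* K)
    (μ : K') (hμ : μ ^ 2 = algebraMap K K' (σ E.x)) :
    ∃ g : K' →+* K', (∀ a, g (algebraMap K K' a) = algebraMap K K' (σ a)) ∧ g E.θ = μ := by
  have ht1 : E.t 1 = 1 := by
    have := E.t1 1
    rwa [map_one] at this
  have hs1 : E.s 1 = 0 := by
    have := E.s1 1
    rwa [map_one] at this
  let g : K' →+* K' :=
    { toFun := fun z => algebraMap K K' (σ (E.t z)) + algebraMap K K' (σ (E.s z)) * μ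
      map_one' := by rw [ht1, hs1, map_one, map_one, map_zero, map_zero, zero_mul, add_zero]
      map_zero' := by simp only [map_zero, zero_mul, add_zero]
      map_add' := fun z w => by
        simp only [map_add]
        ring
      map_mul' := fun z w => by
        rw [(qd_mul E z w).1, (qd_mul E z w).2]
        simp only [map_add, map_mul]
        linear_combination (-(algebraMap K K' (σ (E.s z)) * algebraMap K K' (σ (E.s w)))) * hμ }
  have hg : ∀ z, g z = algebraMap K K' (σ (E.t z)) + algebraMap K K' (σ (E.s z)) * μ :=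
    fun z => rfl
  refine ⟨g, ?_, ?_⟩
  · intro a
    rw [hg, E.t1, E.s1, map_zero, map_zero, zero_mul, add_zero]
  · have h1 := E.tθ 1
    have h2 := E.sθ 1
    rw [map_one, one_mul] at h1 h2
    rw [hg, h1, h2, map_zero, map_zero, zero_add, map_one, map_one, one_mul]

end Pool.Agent.EVL
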