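import Pool.Agent.EVL.TWO
import Pool.Agent.EVL.QDO
import Pool.Agent.EWG.Stmts

/-!
EVL / STP: marked pairs of fields `F < K = F(i)`, the steps of the tower.
-/

set_option autoImplicit false

namespace Pool.Agent.EVL

open Pool.Agent.EWG Pool.Agent.ETG

/-- the facts used -/
structure Facts : Prop where
  unq : Stmt_UNQ
  zfl : Stmt_ZFL
  zmp : Stmt_ZMP
  sta : Stmt_STA
  vkg : EWG.Stmt_VKR
  vkr : EWH.Stmt_VKR
  fin : EWH.Stmt_FIN
  dsf : Stmt_DSF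
  dec : ∀ (L : Type) [Field L], Good L → Finite (VV L) → ∃ (k : ℕ) (C : ZDec (Zf L) k), C.OS

section
variable {Ω : Type} [Field Ω]

theorem vmap_incl' {K K' K'' : Subfield Ω} (h : K ≤ K') (h' : K' ≤ K'') (h'' : K ≤ K'')
    (v : VV K) : vmap (Subfield.inclusion h') (vmap (Subfield.inclusion h) v) =
      vmap (Subfield.inclusion h'') v := by
  rw [vmap_comp]; rfl

theorem vmap_refl' {K : Subfield Ω} (h : K ≤ K) (v : VV K) :
    vmap (Subfield.inclusion h) v = v := by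
  have : Subfield.inclusion h = RingHom.id K := RingHom.ext fun _ => rfl
  rw [this, vmap_id]

theorem isSq_of {K : Subfield Ω} (u : (K)ˣ) (x : Ω) (h : x ∈ K) (hx : x ^ 2 = ((u : K) : Ω)) :
    IsSquare u := by
  have h0 : (⟨x, h⟩ : K) ≠ 0 := by
    intro h1
    have h2 : x = 0 := congrArg Subtype.val h1
    apply u.ne_zero
    apply Subtype.ext
    rw [← hx, h2]
    exact zero_pow (by norm_num)
  refine ⟨Units.mk0 ⟨x, h⟩ h0, ?_⟩
  apply Units.ext
  apply Subtype.ext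
  show ((u : K) : Ω) = x * x
  rw [← hx, pow_two]

theorem sq_of {K : Subfield Ω} {u : (K)ˣ} (h : IsSquare u) :
    ∃ x ∈ K, x ^ 2 = ((u : K) : Ω) := by
  obtain ⟨r, hr⟩ := h
  refine ⟨((r : K) : Ω), (r : K).2, ?_⟩
  have h1 := congrArg (fun z : (K)ˣ => ((z : K) : Ω)) hr
  simp only [Units.val_mul] at h1
  rw [h1, pow_two]
  rfl

theorem nsq_of {F : Subfield Ω} {i : Ω} (i2 : i ^ 2 = -1) (hi : i ∉ F) :
    ¬ IsSquare (-1 : (F)ˣ) := by
  intro h
  obtain ⟨x, hx, hx2⟩ := sq_of h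
  have h1 : (x - i) * (x + i) = 0 := by
    have h2 : x ^ 2 = -1 := hx2
    linear_combination h2 - i2
  rcases mul_eq_zero.1 h1 with h2 | h2
  · have h3 : i = x := (sub_eq_zero.1 h2).symm
    exact hi (by rw [h3]; exact hx)
  · have h3 : i = -x := by linear_combination h2
    exact hi (by rw [h3]; exact neg_mem hx)

/-- standing hypotheses -/
structure Base {W : Type} [AddCommGroup W] [Module (ZMod 2) W] (ZW : W → W → Prop) (i : Ω) :
    Prop where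
  two : (2 : Ω) ≠ 0
  i2 : i ^ 2 = -1
  lw : LZ ZW
  nd : ND ZW
  ind : Indec ZW
  ne : ∃ w : W, w ≠ 0

/-- a marked pair `F < K = F(i)` -/
structure St {W : Type} [AddCommGroup W] [Module (ZMod 2) W] (ZW : W → W → Prop)
    (s : W →ₗ[ZMod 2] W) (i : Ω) where
  F : Subfield Ω
  K : Subfield Ω
  ad : IsAd F K i
  ni : i ∉ F
  fin : Finite (VV F)
  π : VV K →ₗ[ZMod 2] W
  fac : Fac (Zf K) ZW π
  c : K →+* K
  hc : ∀ (z : K) (a b : Ω), a ∈ F → b ∈ F → (z : Ω) = a + b * i → ((c z : K) : Ω) = a - b * i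
  eqv : ∀ v, π (vmap c v) = s (π v)

end

namespace St

variable {Ω : Type} [Field Ω] {W : Type} [AddCommGroup W] [Module (ZMod 2) W]
  {ZW : W → W → Prop} {s : W →ₗ[ZMod 2] W} {i : Ω}

theorem le (S : St ZW s i) : S.F ≤ S.K := S.ad.le

theorem two (B : Base ZW i) (F : Subfield Ω) : (2 : F) ≠ 0 := by
  intro h0
  exact B.two (congrArg Subtype.val h0)

theorem good (S : St ZW s i) (B : Base ZW i) : Good S.K :=
  ⟨two B S.K, ⟨i, S.ad.mem⟩, Subtype.ext B.i2⟩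

theorem qd (S : St ZW s i) (B : Base ZW i) :
    letI : Algebra S.F S.K := (Subfield.inclusion S.le).toAlgebra
    ∃ E : QD S.F S.K, E.x = -1 ∧ ((E.θ : S.K) : Ω) = i ∧ ∀ z, E.σ z = S.c z := by
  let _ : Algebra S.F S.K := (Subfield.inclusion S.le).toAlgebra
  obtain ⟨E, h1, h2, h3⟩ := qdo S.ad S.le (-1) (by rw [B.i2]; rfl) S.ni
  refine ⟨E, h1, h2, ?_⟩
  intro z
  obtain ⟨a, ha, b, hb, hz⟩ := (S.ad z).1 z.2
  apply Subtype.ext
  rw [h3 z a b ha hb hz, S.hc z a b ha hb hz]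

theorem cc (S : St ZW s i) (z : S.K) : S.c (S.c z) = z := by
  obtain ⟨a, ha, b, hb, hz⟩ := (S.ad z).1 z.2
  apply Subtype.ext
  rw [S.hc (S.c z) a (-b) ha (neg_mem hb) (by rw [S.hc z a b ha hb hz]; ring), hz]
  ring

theorem ss (S : St ZW s i) (w : W) : s (s w) = w := by
  obtain ⟨sec, h1, -⟩ := S.fac
  rw [← h1 w, ← S.eqv, ← S.eqv, vmap_aut _ _ S.cc]

theorem sZ (S : St ZW s i) (B : Base ZW i) (hf : Facts) {w w' : W} (h : ZW w w') :
    ZW (s w) (s w') := by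
  obtain ⟨sec, h1, -, h3, h4⟩ := S.fac
  have h5 := h3 _ _ (hf.zmp _ _ S.c (S.good B) _ _ (h4 _ _ h))
  rwa [S.eqv, S.eqv, h1, h1] at h5

/-- `-1` is not a square in `F` -/
theorem nsq (S : St ZW s i) (B : Base ZW i) : ¬ IsSquare (-1 : (S.F)ˣ) :=
  nsq_of B.i2 S.ni

theorem sur (S : St ZW s i) (w : W) : ∃ v, S.π v = w := by
  obtain ⟨sec, h1, -⟩ := S.fac
  exact ⟨sec w, h1 w⟩

/-- `T` extends `S` -/
def Le (S T : St ZW s i) : Prop :=
  ∃ (_ : S.F ≤ T.F) (hK : S.K ≤ T.K), ∀ v, T.π (vmap (Subfield.inclusion hK) v) = S.π v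

theorem Le.refl (S : St ZW s i) : Le S S := ⟨le_rfl, le_rfl, fun v => by rw [vmap_refl']⟩

theorem Le.trans {S T U : St ZW s i} (h : Le S T) (h' : Le T U) : Le S U := by
  obtain ⟨h1, h2, h3⟩ := h
  obtain ⟨h4, h5, h6⟩ := h'
  exact ⟨h1.trans h4, h2.trans h5, fun v => by rw [← vmap_incl' h2 h5, h6, h3]⟩

theorem Le.c {S T : St ZW s i} (h : Le S T) (z : S.K) :
    ((T.c (Subfield.inclusion h.choose_spec.choose z) : T.K) : Ω) = ((S.c z : S.K) : Ω) := by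
  obtain ⟨a, ha, b, hb, hz⟩ := (S.ad z).1 z.2
  rw [S.hc z a b ha hb hz]
  exact T.hc _ a b (h.choose ha) (h.choose hb) hz

end St

end Pool.Agent.EVL
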