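import Pool.Agent.EVL.Defs

/-!
EVL / TWO: the two factor maps over a given one along a quadratic extension.
-/

set_option autoImplicit false

namespace Pool.Agent.EVL

open Pool.Agent.EWG Pool.Agent.ETG

section
variable {V W : Type} [AddCommGroup V] [Module (ZMod 2) V] [AddCommGroup W] [Module (ZMod 2) W]

/-- two factor maps at the same component which agree on a subgroup mapping onto `W` are equal -/
theorem same {V0 : Type} [AddCommGroup V0] [Module (ZMod 2) V0] {Z : V → V → Prop} {k : ℕ}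
    (C : ZDec Z k) (j : Fin k) (π1 π2 : V →ₗ[ZMod 2] W) (res : V0 →ₗ[ZMod 2] V)
    (h1 : ∀ v, π1 (C.p j v) = π1 v) (h2 : ∀ v, π2 (C.p j v) = π2 v)
    (h1i : ∀ v, C.p j v = v → π1 v = 0 → v = 0)
    (hr : ∀ v, π1 (res v) = π2 (res v)) (hs : ∀ w, ∃ v, π1 (res v) = w) :
    ∀ v, π1 v = π2 v := by
  intro v
  obtain ⟨u, hu⟩ := hs (π1 v)
  have h3 : π1 (C.p j (v - res u)) = 0 := by
    rw [h1, map_sub, hu, sub_self]
  have h4 := h1i _ (C.idem j (v - res u)) h3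
  have h5 : π2 (v - res u) = 0 := by
    rw [← h2, h4, map_zero]
  rw [map_sub, ← hr, hu] at h5
  exact (sub_eq_zero.1 h5).symm

theorem fac_aut {Z : V → V → Prop} {ZW : W → W → Prop} {π : V →ₗ[ZMod 2] W}
    (hF : Fac Z ZW π) (f g : V →ₗ[ZMod 2] V) (hfg : ∀ v, f (g v) = v) (hgf : ∀ v, g (f v) = v)
    (hf : ∀ v w, Z v w → Z (f v) (f w)) (hg : ∀ v w, Z v w → Z (g v) (g w)) :
    Fac Z ZW (π.comp f) := by
  obtain ⟨s, h1, h2, h3, h4⟩ := hF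
  refine ⟨g.comp s, ?_, ?_, ?_, ?_⟩
  · intro w
    show π (f (g (s w))) = w
    rw [hfg, h1]
  · intro w u hu
    have h5 := hg _ _ (h2 w (f u) hu)
    rw [hgf] at h5
    exact h5
  · intro v v' h
    exact h3 _ _ (hf _ _ h)
  · intro w w' h
    exact hg _ _ (h4 _ _ h)

theorem fac_cod {Z : V → V → Prop} {ZW : W → W → Prop} {π : V →ₗ[ZMod 2] W}
    (hF : Fac Z ZW π) (a b : W →ₗ[ZMod 2] W) (hab : ∀ w, a (b w) = w) (hba : ∀ w, b (a w) = w)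
    (ha : ∀ v w, ZW v w → ZW (a v) (a w)) (hb : ∀ v w, ZW v w → ZW (b v) (b w)) :
    Fac Z ZW (a.comp π) := by
  obtain ⟨s, h1, h2, h3, h4⟩ := hF
  refine ⟨s.comp b, ?_, ?_, ?_, ?_⟩
  · intro w
    show a (π (s (b w))) = w
    rw [h1, hab]
  · intro w u hu
    have h5 : π u = 0 := by
      have := congrArg b (show a (π u) = 0 from hu)
      rwa [hba, map_zero] at this
    exact h2 (b w) u h5
  · intro v v' h
    exact ha _ _ (h3 _ _ h)
  · intro w w' h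
    exact h4 _ _ (hb _ _ h)

end

theorem vmap_aut {K : Type} [Field K] (f g : K →+* K) (h : ∀ a, f (g a) = a) (v : VV K) :
    vmap f (vmap g v) = v := by
  rw [vmap_comp]
  have : f.comp g = RingHom.id K := RingHom.ext h
  rw [this, vmap_id]

theorem qd_ss {F K : Type} [Field F] [Field K] [Algebra F K] (E : QD F K) (a : K) :
    E.σ (E.σ a) = a := by
  have h1 : ∀ b : F, E.σ (algebraMap F K b) = algebraMap F K b := fun b => E.σ.commutes b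
  conv_lhs => rw [E.dec a]
  rw [map_add, map_mul, h1, h1, E.σθ, map_add, map_mul, map_neg, h1, h1, E.σθ, neg_neg]
  exact (E.dec a).symm

/-- `res ∘ N = 1 + τ` -/
theorem res_nm {K K' : Type} [Field K] [Field K'] [Algebra K K'] (E : QD K K') (w : (K')ˣ) :
    rv K K' (vm (E.nm w)) = vm w + vmap (E.σ : K' →+* K') (vm w) := by
  rw [rv_vm, vmap_vm, ← vm_mul]
  congr 1
  ext
  exact E.nmσ w

theorem two_proof (hUNQ : Stmt_UNQ) (hZFL : Stmt_ZFL) (hZMP : Stmt_ZMP)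
    (hVKR : EWG.Stmt_VKR) {K K' : Type} [Field K] [Field K'] [Algebra K K'] (E : QD K K')
    (gK : Good K) {W : Type} [AddCommGroup W] [Module (ZMod 2) W] {ZW : W → W → Prop}
    (hLW : LZ ZW) (hND : ND ZW) (hInd : Indec ZW) (hne : ∃ w : W, w ≠ 0)
    {π : VV K →ₗ[ZMod 2] W} (hF : Fac (Zf K) ZW π) (hx : π (vm E.x) = 0)
    {k' : ℕ} (C' : ZDec (Zf K') k') (hC : C'.OS) {π1 : VV K' →ₗ[ZMod 2] W}
    (hF1 : Fac (Zf K') ZW π1) (hr1 : ∀ v, π1 (rv K K' v) = π v) :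
    (¬ ∀ v, π1 (vmap (E.σ : K' →+* K') v) = π1 v) ∧
    ∀ π2 : VV K' →ₗ[ZMod 2] W, Fac (Zf K') ZW π2 → (∀ v, π2 (rv K K' v) = π v) →
      (∀ v, π2 v = π1 v) ∨ ∀ v, π2 v = π1 (vmap (E.σ : K' →+* K') v) := by
  have gK' : Good K' := Good.map (algebraMap K K') gK
  set τ : VV K' →ₗ[ZMod 2] VV K' := vmap (E.σ : K' →+* K') with hτ
  have hττ : ∀ v, τ (τ v) = v := vmap_aut _ _ (qd_ss E)
  have hτZ : ∀ v w, Zf K' v w → Zf K' (τ v) (τ w) := hZMP _ _ _ gK'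
  have hτr : ∀ v, τ (rv K K' v) = rv K K' v := by
    intro v
    obtain ⟨a, rfl⟩ := vm_surj v
    rw [rv_vm, hτ, vmap_vm]
    congr 1
    ext
    exact E.σ.commutes _
  have hFa : ∀ {π2 : VV K' →ₗ[ZMod 2] W}, Fac (Zf K') ZW π2 → Fac (Zf K') ZW (π2.comp τ) :=
    fun h => fac_aut h τ τ hττ hττ hτZ hτZ
  obtain ⟨sec, hs1, hs2, -, -⟩ := hF
  have hN : ∀ {π2 : VV K' →ₗ[ZMod 2] W}, (∀ v, π2 (rv K K' v) = π v) → ∀ w : (K')ˣ,
      π (vm (E.nm w)) = π2 (vm w) + π2 (τ (vm w)) := by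
    intro π2 h2 w
    rw [← h2, res_nm E w, map_add]
  have hne1 : ¬ ∀ v, π1 (τ v) = π1 v := by
    intro h
    obtain ⟨w0, hw0⟩ := hne
    obtain ⟨a, ha⟩ := vm_surj (sec w0)
    have h1 : pf E.x a = 0 := by
      have h2 := hs2 w0 (vm E.x) hx
      rw [← ha, (hZFL K gK).2.1] at h2
      rw [pf_comm, h2]
    obtain ⟨w, hw⟩ := ((hVKR K K' gK E).2.2 a).1 h1
    apply hw0
    rw [← hs1 w0, ← ha, ← hw, hN hr1 w, h, ← two_smul (ZMod 2),
      show (2 : ZMod 2) = 0 from rfl, zero_smul]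
  have hsurj : ∀ {π2 : VV K' →ₗ[ZMod 2] W}, (∀ v, π2 (rv K K' v) = π v) →
      ∀ w, ∃ v, π2 (rv K K' v) = w := fun h w => ⟨sec w, by rw [h, hs1]⟩
  have hU : ∀ {π2 : VV K' →ₗ[ZMod 2] W}, Fac (Zf K') ZW π2 → ∃ j,
      (∀ v, π2 (C'.p j v) = π2 v) ∧ (∀ v, C'.p j v = v → π2 v = 0 → v = 0) ∧
      (∀ w, ∃ v, C'.p j v = v ∧ π2 v = w) := by
    intro π2 h2
    obtain ⟨j, h3, h4, h5, -⟩ := hUNQ (VV K') W (Zf K') ZW π2 (hZFL K' gK').1 hLW h2 hND hInd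
      hne k' C' hC
    exact ⟨j, h3, h4, h5⟩
  refine ⟨hne1, ?_⟩
  intro π2 hF2 hr2
  obtain ⟨j1, ha1, hb1, hc1⟩ := hU hF1
  obtain ⟨j2, ha2, hb2, hc2⟩ := hU hF2
  obtain ⟨j3, ha3, hb3, hc3⟩ := hU (hFa hF1)
  obtain ⟨j4, ha4, hb4, hc4⟩ := hU (hFa hF2)
  have hr3 : ∀ v, (π1.comp τ) (rv K K' v) = π v := fun v => by
    show π1 (τ _) = _
    rw [hτr, hr1]
  have hr4 : ∀ v, (π2.comp τ) (rv K K' v) = π v := fun v => by
    show π2 (τ _) = _
    rw [hτr, hr2]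
  by_cases h12 : j1 = j2
  · left
    subst h12
    exact same C' j1 π2 π1 (rv K K') ha2 ha1 hb2 (fun v => by rw [hr1, hr2]) (hsurj hr2)
  by_cases h13 : j1 = j3
  · exfalso
    subst h13
    exact hne1 (same C' j1 (π1.comp τ) π1 (rv K K') ha3 ha1 hb3 (fun v => by rw [hr1, hr3])
      (hsurj hr3))
  by_cases h14 : j1 = j4
  · right
    subst h14
    have h5 := same C' j1 (π2.comp τ) π1 (rv K K') ha4 ha1 hb4 (fun v => by rw [hr1, hr4])
      (hsurj hr4)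
    intro v
    have h6 := h5 (τ v)
    rw [← h6]
    show _ = π2 (τ (τ v))
    rw [hττ]
  exfalso
  obtain ⟨w0, hw0⟩ := hne
  obtain ⟨v, hv1, hv2⟩ := hc1 w0
  obtain ⟨w, rfl⟩ := vm_surj v
  have e2 : π2 (vm w) = 0 := by
    rw [← ha2, ← hv1, C'.orth j2 j1 (Ne.symm h12), map_zero]
  have e3 : π1 (τ (vm w)) = 0 := by
    show (π1.comp τ) (vm w) = 0
    rw [← ha3, ← hv1, C'.orth j3 j1 (Ne.symm h13), map_zero]
  have e4 : π2 (τ (vm w)) = 0 := by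
    show (π2.comp τ) (vm w) = 0
    rw [← ha4, ← hv1, C'.orth j4 j1 (Ne.symm h14), map_zero]
  have e5 := hN hr1 w
  have e6 := hN hr2 w
  rw [e5, e2, e3, e4, hv2, add_zero, add_zero] at e6
  exact hw0 e6

end Pool.Agent.EVL
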