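import Pool.Agent.EVL.KIL
import Pool.Agent.ETG.UNI

/-!
EVL / UNX: union of a chain of marked fields.
-/

set_option autoImplicit false

namespace Pool.Agent.EVL

open Pool.Agent.EWG Pool.Agent.ETG

open UNI_ in
/-- `ETG.Stmt_UNI` for the union -/
theorem unx (hPFZ : EWG.Stmt_PFZ) (hZMP : Stmt_ZMP) (hZFL : Stmt_ZFL)
    (Ω W : Type) [Field Ω] [AddCommGroup W] [Module (ZMod 2) W]
    (ZW : W → W → Prop) (K : ℕ → Subfield Ω) (h : ∀ n, K n ≤ K (n + 1))
    (π : ∀ n, VV (K n) →ₗ[ZMod 2] W) (hgood : ∀ n, Good (K n))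
    (hcomp : ∀ n v, π (n + 1) (vmap (Subfield.inclusion (h n)) v) = π n v)
    (hsurj : ∀ w, ∃ v, π 0 v = w)
    (hZ : ∀ n v v', Zf (K n) v v' → ZW (π n v) (π n v'))
    (hker : ∀ n v, π n v = 0 → ∃ (m : ℕ) (hm : K n ≤ K m), vmap (Subfield.inclusion hm) v = 0)
    (hlift : ∀ v v' : VV (K 0), ZW (π 0 v) (π 0 v') → ∃ (m : ℕ) (hm : K 0 ≤ K m),
      Zf (K m) (vmap (Subfield.inclusion hm) v) (vmap (Subfield.inclusion hm) v'))
    (E : Subfield Ω) (hmem : ∀ x : Ω, x ∈ E ↔ ∃ n, x ∈ K n) (hle : ∀ n, K n ≤ E) :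
    Good E ∧ (∀ w : VV E, ∃ v, vmap (Subfield.inclusion (hle 0)) v = w) ∧
    (∀ v, vmap (Subfield.inclusion (hle 0)) v = 0 ↔ π 0 v = 0) ∧
    ∀ v v', Zf E (vmap (Subfield.inclusion (hle 0)) v) (vmap (Subfield.inclusion (hle 0)) v') ↔
      ZW (π 0 v) (π 0 v') := by
  have hmono : Monotone K := monotone_nat_of_le_succ h
  have hcomp' : ∀ (n m : ℕ) (hnm : K n ≤ K m), n ≤ m → ∀ v,
      π m (vmap (Subfield.inclusion hnm) v) = π n v := by
    intro n m hnm hle
    induction m, hle using Nat.le_induction with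
    | base =>
      intro v
      have : (Subfield.inclusion hnm) = RingHom.id (K n) := rfl
      rw [this, vmap_id]
    | succ m hle ih =>
      intro v
      rw [← vmap_incl (hmono hle) (h m) hnm, hcomp, ih (hmono hle)]
  have hE : K 0 ≤ E := hle 0
  have hGE : Good E := (hgood 0).map (Subfield.inclusion hE)
  have hkerE : ∀ n (v : VV (K n)), π n v = 0 → vmap (Subfield.inclusion (hle n)) v = 0 := by
    intro n v hv
    obtain ⟨m, hm, hm'⟩ := hker n v hv
    rw [← vmap_incl hm (hle m) (hle n), hm', map_zero]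
  refine ⟨hGE, ?_, ?_, ?_⟩
  · intro w
    obtain ⟨u, rfl⟩ := vm_surj w
    obtain ⟨n, hn⟩ := (hmem _).1 (u : E).2
    obtain ⟨u', hu'⟩ := lift_unit (hle n) u hn
    obtain ⟨v, hv⟩ := hsurj (π n (vm u'))
    refine ⟨v, ?_⟩
    have h1 : π n (vm u' + vmap (Subfield.inclusion (hmono (Nat.zero_le n))) v) = 0 := by
      rw [map_add, hcomp' 0 n _ (Nat.zero_le n), hv, dbl]
    have h2 := hkerE n _ h1
    rw [map_add, vmap_incl _ _ hE, vmap_vm, hu'] at h2
    calc vmap (Subfield.inclusion hE) v = (vm u + vm u) + vmap (Subfield.inclusion hE) v := by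
          rw [vm_add_self, zero_add]
      _ = vm u := by rw [add_assoc, h2, add_zero]
  · intro v
    constructor
    · intro hv
      obtain ⟨a, rfl⟩ := vm_surj v
      rw [vmap_vm, vm_eq_zero] at hv
      obtain ⟨c, hc⟩ := hv
      obtain ⟨n, hn⟩ := (hmem _).1 (c : E).2
      obtain ⟨c', hc'⟩ := lift_unit (hle n) c hn
      have h1 : vmap (Subfield.inclusion (hmono (Nat.zero_le n))) (vm a) = 0 := by
        rw [vmap_vm, vm_eq_zero]
        refine ⟨c', ?_⟩
        apply Units.ext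
        apply Subtype.ext
        have h2 := congrArg (fun z : (E)ˣ => ((z : E) : Ω)) hc
        have h3 := congrArg (fun z : (E)ˣ => ((z : E) : Ω)) hc'
        change ((a : K 0) : Ω) = ((c : E) : Ω) * ((c : E) : Ω) at h2
        change ((c' : K n) : Ω) = ((c : E) : Ω) at h3
        change ((a : K 0) : Ω) = ((c' : K n) : Ω) * ((c' : K n) : Ω)
        rw [h3, h2]
      rw [← hcomp' 0 n (hmono (Nat.zero_le n)) (Nat.zero_le n), h1, map_zero]
    · exact hkerE 0 v
  · intro v v'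
    constructor
    · intro hv
      obtain ⟨a, rfl⟩ := vm_surj v
      obtain ⟨b, rfl⟩ := vm_surj v'
      rw [vmap_vm, vmap_vm, (hZFL E hGE).2.1, hPFZ E hGE] at hv
      obtain ⟨s, t, hst⟩ := hv
      obtain ⟨n, hn⟩ := (hmem _).1 s.2
      obtain ⟨m, hm⟩ := (hmem _).1 t.2
      have hsn : (s : Ω) ∈ K (max n m) := hmono (le_max_left n m) hn
      have htn : (t : Ω) ∈ K (max n m) := hmono (le_max_right n m) hm
      have h1 : Zf (K (max n m)) (vmap (Subfield.inclusion (hmono (Nat.zero_le _))) (vm a))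
          (vmap (Subfield.inclusion (hmono (Nat.zero_le _))) (vm b)) := by
        rw [vmap_vm, vmap_vm, (hZFL _ (hgood _)).2.1, hPFZ _ (hgood _)]
        refine ⟨⟨s, hsn⟩, ⟨t, htn⟩, ?_⟩
        apply Subtype.ext
        exact congrArg (fun z : E => (z : Ω)) hst
      have h2 := hZ _ _ _ h1
      rwa [hcomp' 0 _ _ (Nat.zero_le _), hcomp' 0 _ _ (Nat.zero_le _)] at h2
    · intro hv
      obtain ⟨m, hm, hm'⟩ := hlift v v' hv
      have h1 := hZMP _ _ (Subfield.inclusion (hle m)) (hgood m) _ _ hm'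
      rwa [vmap_incl hm (hle m) hE, vmap_incl hm (hle m) hE] at h1

end Pool.Agent.EVL
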